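import Pool.Agent.Lead.Mod4

namespace Pool.Agent.Results.MP_400b40_lc.Q1

open Pool.Agent.Lead.Mod Pool.Agent.Lead.Mod.Fm

theorem result :
    Function.Bijective Fm.code ∧
    ∃ L : Set Fm, Normal L ∧
      imp (box (imp (box (var 0)) (var 0))) (box (var 0)) ∈ L ∧
      ComputablePred (fun n : ℕ => ∃ a ∈ L, a.code = n) ∧
      ¬ ComputablePred (fun p : ℕ × ℕ =>
        ∃ a b : Fm, a.code = p.1 ∧ b.code = p.2 ∧ ∃ ι, Interpolant L a b ι) := by
  refine ⟨⟨fun a b h => code_inj h, fun n => ⟨dec n, code_dec n⟩⟩, LU, LU_normal, ?_, ?_, ?_⟩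
  · refine LG_sub_LU fun x h => ?_
    by_contra hc
    obtain ⟨v, hv, h1, h2⟩ := exists_last x _ hc
    exact h1 (h v hv h2)
  · refine p_LU.computablePred.of_eq fun n => ⟨fun h => ⟨_, h, code_dec n⟩, ?_⟩
    rintro ⟨a, ha, rfl⟩
    rwa [dec_code]
  · intro h
    refine ComputablePred.halting_problem 0 (ComputablePred.computable_of_manyOneReducible
      ⟨fun c => ((Phi (2 * Encodable.encode c)).code, Psi.code), ?_, fun c => ?_⟩ h)
    · exact ((pc_Phi.comp (Primrec.nat_mul.comp (Primrec.const 2) Primrec.encode)).pair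
        (Primrec.const _)).to_comp
    · refine (interp_iff c).symm.trans ⟨fun h => ⟨_, _, rfl, rfl, h⟩, ?_⟩
      rintro ⟨a, b, ha, hb, h⟩
      rwa [code_inj ha, code_inj hb] at h

end Pool.Agent.Results.MP_400b40_lc.Q1
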